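import Mathlib

/-!
A contractible, sigma-compact, Frechet-Urysohn Tychonoff space in which One wins the compact-open
k-cover game, does not win the finite-open game, and has no predetermined win in the compact-open
k-cover game: a star of arcs indexed by `ℝ × ℕ`.
-/

namespace Pool.Agent.Results.MP_c6d0b8_gt.KCoverFrechet

open Set Filter Topology MeasureTheory

/-- The full history of the first `n` rounds: One's moves `K i` and Two's answers `U i`. -/
def history {X : Type} (K U : ℕ → Set X) (n : ℕ) : List (Set X × Set X) :=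
  List.ofFn fun i : Fin n => (K i, U i)

/-- One has a winning strategy in the game of length `ω` in which One plays sets satisfying
`legal`, Two answers with open supersets `U n`, and One wins iff `win U`: there is a rule `σ`
choosing One's move from the full history such that in every play in which One follows `σ` and
Two answers with open supersets, all moves of One are legal and One wins. -/
def OneWins {X : Type} [TopologicalSpace X] (legal : Set X → Prop)
    (win : (ℕ → Set X) → Prop) : Prop :=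
  ∃ σ : List (Set X × Set X) → Set X, ∀ K U : ℕ → Set X,
    (∀ n, K n = σ (history K U n)) → (∀ n, IsOpen (U n) ∧ K n ⊆ U n) →
      (∀ n, legal (K n)) ∧ win U

/-- One has a winning predetermined strategy: a fixed sequence of legal moves against which every
sequence of legal answers of Two loses. -/
def OneWinsPre {X : Type} [TopologicalSpace X] (legal : Set X → Prop)
    (win : (ℕ → Set X) → Prop) : Prop :=
  ∃ K : ℕ → Set X, (∀ n, legal (K n)) ∧
    ∀ U : ℕ → Set X, (∀ n, IsOpen (U n) ∧ K n ⊆ U n) → win U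

/-- Sets of indices that are finite in every row and in every column. -/
def Sparse (A : Set (ℝ × ℕ)) : Prop :=
  (∀ m, {a | (a, m) ∈ A}.Finite) ∧ ∀ a, {m | (a, m) ∈ A}.Finite

/-- Weights with sparse support. -/
abbrev Wt : Type := {w : ℝ × ℕ → ℝ // Sparse {d | w d ≠ 0}}

/-- The carrier of the example. -/
def carrier : Set (Wt → ℝ) := {z | ∃ d, ∃ t ∈ Icc (0 : ℝ) 1, z = fun w : Wt => w.1 d * t}

/-- The example. -/
abbrev Sp : Type := carrier

/-- The point with parameter `t` on the arc `d`. -/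
def pt (d : ℝ × ℕ) (t : unitInterval) : Sp := ⟨fun w => w.1 d * t, d, t, t.2, rfl⟩

/-- The centre. -/
def o : Sp := pt (0, 0) 0

lemma pt_zero (d : ℝ × ℕ) : pt d 0 = o := Subtype.ext (by ext w; simp [pt, o])

lemma exists_pt (z : Sp) : ∃ d t, z = pt d t :=
  let ⟨d, t, ht, e⟩ := z.2
  ⟨d, ⟨t, ht⟩, Subtype.ext e⟩

lemma cont_pt (d : ℝ × ℕ) : Continuous (pt d) :=
  Continuous.subtype_mk (continuous_pi fun _ => continuous_const.mul continuous_subtype_val) _

lemma cont_ev (w : Wt) : Continuous fun z : Sp => z.1 w :=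
  (continuous_apply w).comp continuous_subtype_val

lemma Sparse.mono {A B : Set (ℝ × ℕ)} (h : Sparse A) (hB : B ⊆ A) : Sparse B :=
  ⟨fun m => (h.1 m).subset fun _ ha => hB ha, fun a => (h.2 a).subset fun _ ha => hB ha⟩

lemma sparse_single (d : ℝ × ℕ) : Sparse {d} :=
  ⟨fun _ => (finite_singleton d.1).subset fun _ h => congrArg Prod.fst h,
    fun _ => (finite_singleton d.2).subset fun _ h => congrArg Prod.snd h⟩

open Classical in
/-- The coordinate on one arc. -/
noncomputable def ind (d : ℝ × ℕ) : Wt :=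
  ⟨fun e => if e = d then 1 else 0, (sparse_single d).mono fun e he => by simpa using he⟩

lemma ind_self (d : ℝ × ℕ) (t : unitInterval) : (pt d t).1 (ind d) = t := by simp [pt, ind]

lemma ind_ne {d e : ℝ × ℕ} (h : e ≠ d) (t : unitInterval) : (pt e t).1 (ind d) = 0 := by
  simp [pt, ind, h]

lemma nhds_o {U : Set Sp} (hU : U ∈ 𝓝 o) : Sparse {d | ¬ ∀ t, pt d t ∈ U} := by
  rw [nhds_subtype, nhds_pi, mem_comap] at hU
  obtain ⟨V, hV, h1⟩ := hU
  obtain ⟨I, hI, T, hT, h2⟩ := mem_pi.1 hV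
  have : Sparse (⋃ w ∈ I, {d | w.1 d ≠ 0}) :=
    ⟨fun m => (hI.biUnion fun w _ => w.2.1 m).subset fun a ha => by simpa using ha,
      fun a => (hI.biUnion fun w _ => w.2.2 a).subset fun m hm => by simpa using hm⟩
  refine this.mono fun d hd => by_contra fun h => hd fun t => h1 (h2 fun w hw => ?_)
  have h3 : w.1 d = 0 := by_contra fun h4 => h (mem_biUnion hw h4)
  have h4 := mem_of_mem_nhds (hT w)
  simpa [pt, o, h3] using h4

/-- The union of the first `n` rows and of the columns in `T`. -/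
def star (n : ℕ) (T : Set ℝ) : Set Sp := {z | ∃ d t, (d.2 ≤ n ∨ d.1 ∈ T) ∧ z = pt d t}

lemma o_mem (n : ℕ) (T : Set ℝ) : o ∈ star n T := ⟨(0, 0), 0, Or.inl (Nat.zero_le n), rfl⟩

lemma compact_star (n : ℕ) {T : Set ℝ} (hT : T.Finite) : IsCompact (star n T) := by
  refine isCompact_iff_ultrafilter_le_nhds.2 fun f hf => ?_
  by_cases h : (f : Filter Sp) ≤ 𝓝 o
  · exact ⟨o, o_mem n T, h⟩
  obtain ⟨U, hU, h1⟩ := Filter.not_le.1 h
  have h2 := nhds_o hU
  have h3 : ({d | ¬ ∀ t, pt d t ∈ U} ∩ {d | d.2 ≤ n ∨ d.1 ∈ T}).Finite := by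
    refine (((finite_Iic n).biUnion fun m _ => (h2.1 m).image fun a => (a, m)).union
      (hT.biUnion fun a _ => (h2.2 a).image fun m => (a, m))).subset ?_
    rintro ⟨a, m⟩ ⟨h4, h5 | h5⟩
    · exact Or.inl (mem_biUnion h5 ⟨a, h4, rfl⟩)
    · exact Or.inr (mem_biUnion h5 ⟨m, h4, rfl⟩)
  have h4 := h3.isCompact_biUnion fun d _ => isCompact_range (cont_pt d)
  obtain ⟨z, hz, h5⟩ := isCompact_iff_ultrafilter_le_nhds.1 h4 f (by
    rw [le_principal_iff] at hf ⊢
    filter_upwards [hf, Ultrafilter.compl_mem_iff_notMem.2 h1]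
    rintro _ ⟨d, t, hd, rfl⟩ h6
    exact mem_biUnion (x := d) ⟨fun h7 => h6 (h7 t), hd⟩ ⟨t, rfl⟩)
  obtain ⟨d, hd, t, rfl⟩ := mem_iUnion₂.1 hz
  exact ⟨_, ⟨d, t, hd.2, rfl⟩, h5⟩

lemma subset_star {C : Set Sp} (hC : IsCompact C) : ∃ n T, T.Finite ∧ C ⊆ star n T := by
  classical
  by_contra h
  push Not at h
  have key : ∀ (n : ℕ) (T : Finset ℝ), ∃ (a : ℝ) (m : ℕ) (t : unitInterval), n < m ∧ a ∉ T ∧
      (t : ℝ) ≠ 0 ∧ pt (a, m) t ∈ C := fun n T => by
    obtain ⟨z, hz, h1⟩ := not_subset.1 (h n T T.finite_toSet)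
    obtain ⟨⟨a, m⟩, t, rfl⟩ := exists_pt z
    refine ⟨a, m, t, not_le.1 fun h2 => h1 ⟨_, t, Or.inl h2, rfl⟩,
      fun h2 => h1 ⟨_, t, Or.inr h2, rfl⟩, fun h2 => h1 ?_, hz⟩
    rw [show t = 0 from Subtype.ext h2, pt_zero]
    exact o_mem _ _
  choose a m t h1 h2 h3 h4 using key
  let S : ℕ → Finset ℝ := fun n => Nat.rec ∅ (fun k T => insert (a k T) T) n
  have hS : Monotone S := monotone_nat_of_le_succ fun k => Finset.subset_insert _ _
  have hinj : Function.Injective fun n => a n (S n) := Function.Injective.of_lt_imp_ne fun i j hij e =>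
    h2 j (S j) (hS (Nat.succ_le_of_lt hij) (e ▸ Finset.mem_insert_self _ _))
  let d : ℕ → ℝ × ℕ := fun n => (a n (S n), m n (S n))
  have hd : Function.Injective d := fun i j e => hinj (congrArg Prod.fst e)
  have hsp : Sparse (range d) := by
    refine ⟨fun k => ((finite_Iio k).image fun n => a n (S n)).subset ?_,
      fun b => (((finite_singleton b).preimage hinj.injOn).image fun n => m n (S n)).subset ?_⟩
    · rintro b ⟨n, e⟩
      exact ⟨n, (show m n (S n) = k from congrArg Prod.snd e) ▸ h1 n (S n), congrArg Prod.fst e⟩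
    · rintro k ⟨n, e⟩
      exact ⟨n, congrArg Prod.fst e, congrArg Prod.snd e⟩
  let w : Wt := ⟨Function.extend d (fun n => n / t n (S n)) 0, hsp.mono fun e he =>
    by_contra fun h5 => he (Function.extend_apply' _ _ _ h5)⟩
  obtain ⟨B, hB⟩ := (hC.image (cont_ev w)).bddAbove
  obtain ⟨n, hn⟩ := exists_nat_gt B
  have h5 : (pt (a n (S n), m n (S n)) (t n (S n))).1 w ≤ B := hB ⟨_, h4 n (S n), rfl⟩
  rw [show (pt (a n (S n), m n (S n)) (t n (S n))).1 w = n from by
    change Function.extend d (fun n => (n : ℝ) / t n (S n)) 0 (d n) * (t n (S n) : ℝ) = n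
    rw [hd.extend_apply, div_mul_cancel₀ _ (h3 _ _)]] at h5
  exact absurd h5 (not_le.2 hn)

instance : ContractibleSpace Sp := by
  refine StarConvex.contractibleSpace (x := 0) ?_ ⟨_, o.2⟩
  rintro _ ⟨d, t, ht, rfl⟩ a b ha hb hab
  exact ⟨d, b * t, ⟨mul_nonneg hb ht.1, mul_le_one₀ (by linarith) ht.1 ht.2⟩, by
    ext w; simp; ring⟩

instance : SigmaCompactSpace Sp :=
  ⟨⟨fun n => star n ∅, fun n => compact_star n finite_empty, eq_univ_of_forall fun z =>
    let ⟨d, t, e⟩ := exists_pt z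
    mem_iUnion.2 ⟨d.2, d, t, Or.inl le_rfl, e⟩⟩⟩

lemma seq_of_arc {S : Set Sp} (d : ℝ × ℕ) (t : unitInterval) (h : t ∈ closure (pt d ⁻¹' S)) :
    pt d t ∈ seqClosure S :=
  let ⟨x, h1, h2⟩ := mem_closure_iff_seq_limit.1 h
  ⟨fun n => pt d (x n), h1, ((cont_pt d).tendsto t).comp h2⟩

lemma seq_of_inf {S : Set Sp} {ι : Type} (f : ι → ℝ × ℕ) (hf : ∀ A, Sparse A → (f ⁻¹' A).Finite)
    (h : {i | ∃ t, pt (f i) t ∈ S}.Infinite) : o ∈ seqClosure S := by
  let x := h.natEmbedding
  choose t ht using fun n => (x n).2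
  refine ⟨fun n => pt (f (x n)) (t n), ht, fun U hU => ?_⟩
  have h1 := (hf _ (nhds_o hU)).preimage
    (Subtype.val_injective.comp x.injective).injOn
  rw [mem_map, ← Nat.cofinite_eq_atTop, mem_cofinite]
  exact h1.subset fun n hn h2 => hn (h2 _)

instance : FrechetUrysohnSpace Sp := by
  classical
  refine ⟨fun S z hz => ?_⟩
  obtain ⟨d, t, rfl⟩ := exists_pt z
  by_cases ht : t = 0
  · subst ht
    rw [pt_zero] at hz ⊢
    by_contra h
    have h1 : Sparse {d | ∃ t, pt d t ∈ S} :=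
      ⟨fun m => by_contra fun h1 => h (seq_of_inf (fun a => (a, m)) (fun _ hA => hA.1 m) h1),
        fun a => by_contra fun h1 => h (seq_of_inf (fun m => (a, m)) (fun _ hA => hA.2 a) h1)⟩
    have h2 : ∀ d, ∃ ε : ℝ, 0 < ε ∧ ∀ t, pt d t ∈ S → ε ≤ t := fun d => by
      have h3 : (0 : unitInterval) ∉ closure (pt d ⁻¹' S) := fun h3 =>
        h (pt_zero d ▸ seq_of_arc d 0 h3)
      rw [Metric.mem_closure_iff] at h3
      push Not at h3
      obtain ⟨ε, h4, h5⟩ := h3
      exact ⟨ε, h4, fun t ht => by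
        simpa [Subtype.dist_eq, abs_of_nonneg t.2.1] using h5 t ht⟩
    choose ε h3 h4 using h2
    let w : Wt := ⟨fun d => if ∃ t, pt d t ∈ S then (ε d)⁻¹ else 0, h1.mono fun d hd =>
      by_contra fun h5 => hd (if_neg h5)⟩
    have h5 := (isClosed_le continuous_const (cont_ev w)).closure_subset_iff.2
      (show S ⊆ {z | (1 : ℝ) ≤ z.1 w} from fun z hz => by
        obtain ⟨d, t, rfl⟩ := exists_pt z
        change 1 ≤ ite _ _ _ * (t : ℝ)
        rw [if_pos ⟨t, hz⟩, le_inv_mul_iff₀ (h3 d), mul_one]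
        exact h4 d t hz) hz
    exact absurd h5 (by simp [o, pt])
  · refine seq_of_arc d t (Metric.mem_closure_iff.2 fun ε hε => ?_)
    have h0 : (0 : ℝ) < t := lt_of_le_of_ne t.2.1 fun h => ht (Subtype.ext h.symm)
    obtain ⟨z, h1, h2⟩ := mem_closure_iff.1 hz _
      ((Metric.isOpen_ball (x := (t : ℝ)) (ε := min ε t)).preimage (cont_ev (ind d)))
      (by simp [ind_self, hε, h0])
    obtain ⟨e, s, rfl⟩ := exists_pt z
    rw [mem_preimage, Metric.mem_ball, lt_min_iff] at h1
    obtain rfl : e = d := by_contra fun h => by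
      simp [ind_ne h, abs_of_pos h0] at h1
    rw [ind_self] at h1
    exact ⟨s, h2, by rw [dist_comm]; exact h1.1⟩

/-- Columns that are not inside `U`. -/
def bad (U : Set Sp) : Set ℝ := {a | ¬ ∀ m t, pt (a, m) t ∈ U}

lemma bad_countable {U : Set Sp} (hU : U ∈ 𝓝 o) : (bad U).Countable :=
  (countable_iUnion fun m => ((nhds_o hU).1 m).countable).mono fun a ha => by
    simpa [bad] using ha

lemma one_wins : OneWins (X := Sp) (fun K => K.Nonempty ∧ IsCompact K)
    (fun U => ∀ C, IsCompact C → ∃ n, C ⊆ U n) := by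
  have : ∀ U : Set Sp, ∃ f : ℕ → ℝ, (bad U).Countable → bad U ⊆ range f := by
    intro U
    by_cases h : (bad U).Countable
    · obtain ⟨f, hf⟩ := countable_iff_exists_subset_range.1 h
      exact ⟨f, fun _ => hf⟩
    · exact ⟨fun _ => 0, fun h' => (h h').elim⟩
  choose e he using this
  let F : List (Set Sp × Set Sp) → Set ℝ := fun h => ⋃ p ∈ {p | p ∈ h}, e p.2 '' Iio h.length
  have hF : ∀ h, (F h).Finite := fun h =>
    Finite.biUnion (List.finite_toSet h) fun p _ => (finite_Iio _).image _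
  refine ⟨fun h => star h.length (F h), fun K U hK hU => ⟨fun n => ?_, fun C hC => ?_⟩⟩
  · rw [hK n]
    exact ⟨⟨o, o_mem _ _⟩, compact_star _ (hF _)⟩
  · have hinf : ∀ n, U n ∈ 𝓝 o := fun n => (hU n).1.mem_nhds ((hU n).2 (hK n ▸ o_mem _ _))
    obtain ⟨k, T, hT, hCT⟩ := subset_star hC
    have key : ∀ a : ℝ, ∀ᶠ n in atTop, ∀ m t, pt (a, m) t ∈ U n := by
      intro a
      by_cases ha : ∃ i, a ∈ bad (U i)
      · obtain ⟨i, hi⟩ := ha
        obtain ⟨j, hj⟩ := he _ (bad_countable (hinf i)) hi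
        filter_upwards [eventually_gt_atTop i, eventually_gt_atTop j] with n hin hjn m t
        apply (hU n).2
        rw [hK n]
        refine ⟨_, t, Or.inr ?_, rfl⟩
        simp only [F, mem_iUnion]
        refine ⟨(K i, U i), ?_, j, ?_, hj⟩
        · exact List.mem_ofFn.2 ⟨⟨i, hin⟩, rfl⟩
        · simpa [history] using hjn
      · refine Eventually.of_forall fun n => ?_
        by_contra hn
        exact ha ⟨n, hn⟩
    obtain ⟨n, hn, hkn⟩ := (((eventually_all_finite hT).2 fun a _ => key a).and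
      (eventually_ge_atTop k)).exists
    refine ⟨n, fun z hz => ?_⟩
    obtain ⟨d, t, h | h, rfl⟩ := hCT hz
    · apply (hU n).2
      rw [hK n]
      exact ⟨d, t, Or.inl (by simpa [history] using h.trans hkn), rfl⟩
    · exact hn _ h d.2 t

lemma exists_small (n : ℕ) (F : Set ℝ) (hF : F.Finite) :
    ∃ V : Set ℝ, IsOpen V ∧ F ⊆ V ∧ volume V ≤ (2⁻¹ : ENNReal) ^ n * (2⁻¹ * 2⁻¹) := by
  have hpos : (0 : ENNReal) < (2⁻¹ : ENNReal) ^ n * (2⁻¹ * 2⁻¹) := by
    refine ENNReal.mul_pos (pow_ne_zero _ (by simp)) (mul_ne_zero (by simp) (by simp))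
  obtain ⟨V, h1, h2, h3⟩ := F.exists_isOpen_lt_of_lt (μ := volume) _ (hF.measure_zero volume ▸ hpos)
  exact ⟨V, h2, h1, h3.le⟩

lemma not_finite_open : ¬ OneWins (X := Sp) (fun F => F.Finite) (fun U => ⋃ n, U n = univ) := by
  rintro ⟨σ, hσ⟩
  let g : Sp → ℝ := fun z => z.1 (ind (0, 0))
  have : ∀ (n : ℕ) (F : Set Sp), ∃ V : Set ℝ, IsOpen V ∧ (∀ p ∈ F, g p ∈ V) ∧
      (F.Finite → volume V ≤ (2⁻¹ : ENNReal) ^ n * (2⁻¹ * 2⁻¹)) := by
    intro n F
    by_cases hF : F.Finite
    · obtain ⟨V, h1, h2, h3⟩ := exists_small n _ (hF.image g)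
      exact ⟨V, h1, fun p hp => h2 ⟨p, hp, rfl⟩, fun _ => h3⟩
    · exact ⟨univ, isOpen_univ, fun _ _ => mem_univ _, fun h => (hF h).elim⟩
  choose V hV1 hV2 hV3 using this
  let resp : ℕ → Set Sp → Set Sp := fun n F => {p | g p ∈ V n F}
  let H : ℕ → List (Set Sp × Set Sp) := fun n =>
    Nat.rec [] (fun m h => h ++ [(σ h, resp m (σ h))]) n
  let K : ℕ → Set Sp := fun n => σ (H n)
  let U : ℕ → Set Sp := fun n => resp n (K n)
  have hH : ∀ n, history K U n = H n := by
    intro n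
    induction n with
    | zero => rfl
    | succ n ih =>
      have : history K U (n + 1) = history K U n ++ [(K n, U n)] := by
        unfold history
        rw [List.ofFn_succ_last]
        simp
      rw [this, ih]
  obtain ⟨hleg, hwin⟩ := hσ K U (fun n => by rw [hH]) (fun n =>
    ⟨(hV1 n (K n)).preimage (cont_ev _), hV2 n (K n)⟩)
  have hcov : Icc (0 : ℝ) 1 ⊆ ⋃ n, V n (K n) := by
    intro x hx
    have : pt (0, 0) ⟨x, hx⟩ ∈ ⋃ n, U n := by rw [hwin]; exact mem_univ _
    obtain ⟨n, hn⟩ := mem_iUnion.1 this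
    exact mem_iUnion.2 ⟨n, by simpa [U, resp, g, ind_self] using hn⟩
  have h1 : volume (Icc (0 : ℝ) 1) ≤ ∑' n : ℕ, (2⁻¹ : ENNReal) ^ n * (2⁻¹ * 2⁻¹) :=
    (measure_mono hcov).trans ((measure_iUnion_le _).trans
      (ENNReal.tsum_le_tsum fun n => hV3 n (K n) (hleg n)))
  rw [ENNReal.tsum_mul_right, ENNReal.tsum_geometric, ENNReal.one_sub_inv_two, inv_inv,
    ← mul_assoc, ENNReal.mul_inv_cancel (by simp) (by simp), one_mul] at h1
  simp only [Real.volume_Icc, sub_zero, ENNReal.ofReal_one] at h1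
  exact absurd h1 (by simp)

lemma not_pre : ¬ OneWinsPre (X := Sp) (fun K => K.Nonempty ∧ IsCompact K)
    (fun U => ∀ C, IsCompact C → ∃ n, C ⊆ U n) := by
  rintro ⟨K, hK, hwin⟩
  choose k T hT hKT using fun n => subset_star (hK n).2
  have hc : (⋃ n, T n).Countable := countable_iUnion fun n => (hT n).countable
  obtain ⟨a, ha⟩ : ∃ a : ℝ, a ∉ ⋃ n, T n := by
    by_contra h
    push Not at h
    exact Cardinal.not_countable_real (hc.mono fun a _ => h a)
  obtain ⟨n, hn⟩ := hwin (fun n => {pt (a, k n + 1) 1}ᶜ) (fun n => ⟨isOpen_compl_singleton,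
    fun z hz h => by
      obtain ⟨d, t, h1, rfl⟩ := hKT n hz
      have h2 := congrArg (fun z : Sp => z.1 (ind (a, k n + 1))) (mem_singleton_iff.1 h)
      obtain rfl : d = (a, k n + 1) := by_contra fun h3 => by simp [ind_self, ind_ne h3] at h2
      exact h1.elim (by simp) fun h3 => ha (mem_iUnion.2 ⟨n, h3⟩)⟩)
    (star 0 {a}) (compact_star 0 (finite_singleton a))
  exact hn ⟨(a, k n + 1), 1, Or.inr rfl, rfl⟩ rfl

theorem result :
    ∃ (X : Type) (_ : TopologicalSpace X), T35Space X ∧ ContractibleSpace X ∧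
      SigmaCompactSpace X ∧ FrechetUrysohnSpace X ∧
      OneWins (X := X) (fun K => K.Nonempty ∧ IsCompact K)
        (fun U => ∀ C, IsCompact C → ∃ n, C ⊆ U n) ∧
      ¬ OneWins (X := X) (fun F => F.Finite) (fun U => ⋃ n, U n = Set.univ) ∧
      ¬ OneWinsPre (X := X) (fun K => K.Nonempty ∧ IsCompact K)
        (fun U => ∀ C, IsCompact C → ∃ n, C ⊆ U n) :=
  ⟨Sp, inferInstance, inferInstance, inferInstance, inferInstance, inferInstance, one_wins,
    not_finite_open, not_pre⟩

end Pool.Agent.Results.MP_c6d0b8_gt.KCoverFrechet
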